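import Mathlib

namespace Pool.Agent.Results.MP_5e9fbd_co.Four

def idx (a b : Fin 4) : ℕ := (![![0, 0, 1, 2], ![0, 0, 3, 4], ![1, 3, 0, 5], ![2, 4, 5, 0]] a) b

def gr (m : ℕ) : SimpleGraph (Fin 4) where
  Adj a b := a ≠ b ∧ m.testBit (idx a b) = true
  symm := ⟨fun a b h => ⟨h.1.symm, by
    have : ∀ a b, idx a b = idx b a := by decide
    rw [← this]; exact h.2⟩⟩
  loopless := ⟨fun a h => h.1 rfl⟩

instance (m : ℕ) : DecidableRel (gr m).Adj :=
  fun a b => inferInstanceAs (Decidable (a ≠ b ∧ m.testBit (idx a b) = true))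

def L : List ℕ :=
  [15, 23, 27, 29, 30, 31, 39, 43, 45, 46, 47, 51, 53, 54, 55, 57, 58, 59, 60, 61, 62, 63]

lemma inj : ∀ m ∈ L, ∀ k ∈ L, (∀ a b, (gr m).Adj a b ↔ (gr k).Adj a b) → m = k := by
  decide +kernel

lemma dom : ∀ m ∈ L, ∀ k ∈ L, ∃ x y : Fin 4, ∀ v, v = x ∨ v = y ∨
    ((gr m).Adj x v ∧ (gr k).Adj x v) ∨ ((gr m).Adj y v ∧ (gr k).Adj y v) := by
  decide +kernel

lemma comp {G : SimpleGraph (Fin 4)} {x y : Fin 4}
    (h : ∀ v, v = x ∨ v = y ∨ G.Adj x v ∨ G.Adj y v) : Nat.card G.ConnectedComponent ≤ 2 := by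
  have hs : Function.Surjective
      (fun b : Bool => if b then G.connectedComponentMk x else G.connectedComponentMk y) := by
    intro c
    induction c using SimpleGraph.ConnectedComponent.ind with
    | h v =>
      rcases h v with rfl | rfl | h | h
      · exact ⟨true, rfl⟩
      · exact ⟨false, rfl⟩
      · exact ⟨true, SimpleGraph.ConnectedComponent.sound h.reachable⟩
      · exact ⟨false, SimpleGraph.ConnectedComponent.sound h.reachable⟩
  simpa using Nat.card_le_card_of_surjective _ hs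

theorem result : ∃ (n : ℕ) (F : Finset (SimpleGraph (Fin n))), 3 ≤ n ∧
    (∀ G ∈ F, ∀ H ∈ F, Nat.card (G ⊓ H).ConnectedComponent ≤ 2) ∧
    ((n : ℝ) + 1) / 2 ^ n * 2 ^ n.choose 2 < F.card := by
  classical
  refine ⟨4, L.toFinset.image gr, by norm_num, ?_, ?_⟩
  · intro G hG H hH
    obtain ⟨m, hm, rfl⟩ := Finset.mem_image.mp hG
    obtain ⟨k, hk, rfl⟩ := Finset.mem_image.mp hH
    obtain ⟨x, y, h⟩ := dom m (List.mem_toFinset.mp hm) k (List.mem_toFinset.mp hk)
    exact comp h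
  · rw [Finset.card_image_of_injOn fun m hm k hk e =>
      inj m (List.mem_toFinset.mp hm) k (List.mem_toFinset.mp hk) fun a b => by rw [e]]
    have h1 : L.toFinset.card = 22 := by decide +kernel
    have h2 : Nat.choose 4 2 = 6 := by decide
    rw [h1, h2]
    norm_num

end Pool.Agent.Results.MP_5e9fbd_co.Four
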